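import Mathlib

/-!
# Bases for linearly ordered topological spaces: definitions and statements (project LB)
-/

namespace Pool.Agent.N585.LB

open Cardinal Set

universe u

/-- A LOTS embedding: a strictly increasing map which is continuous for the interval topologies. -/
def IsLE {A B : Type u} [LinearOrder A] [LinearOrder B] (f : A → B) : Prop :=
  StrictMono f ∧ @Continuous A B (Preorder.topology A) (Preorder.topology B) f

/-- `A` LOTS-embeds into `B`. -/
def LotsLE (A B : Type u) [LinearOrder A] [LinearOrder B] : Prop :=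
  ∃ f : A → B, IsLE f

/-- The class of the `ℵ₁`-dense orders in which every point has countable cofinality and countable
coinitiality (wherever these are defined). -/
structure InC (L : Type u) [LinearOrder L] : Prop where
  nontriv : ∃ a b : L, a < b
  dense : ∀ a b : L, a < b → #(Ioo a b) = ℵ₁
  cof : ∀ x : L, (Iio x).Nonempty → ∃ s : ℕ → L, StrictMono s ∧ IsLUB (range s) x
  coi : ∀ x : L, (Ioi x).Nonempty → ∃ s : ℕ → L, StrictAnti s ∧ IsGLB (range s) x

/-- `f` is continuous from the left and from the right at `x`. -/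
def ContAt {A B : Type u} [LinearOrder A] [LinearOrder B] (f : A → B) (x : A) : Prop :=
  ((Iio x).Nonempty → ∀ z, z < f x → ∃ y, y < x ∧ z < f y) ∧
  ((Ioi x).Nonempty → ∀ z, f x < z → ∃ y, x < y ∧ f y < z)

/-- The countable chain condition: families of pairwise disjoint nonempty intervals are
countable. -/
def CCC (L : Type u) [LinearOrder L] : Prop :=
  ∀ F : Set (L × L), (∀ p ∈ F, (Ioo p.1 p.2).Nonempty) →
    F.PairwiseDisjoint (fun p => Ioo p.1 p.2) → F.Countable

/-- The order type `ω₁`. -/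
abbrev O1 : Type u := (ord ℵ₁ : Ordinal.{u}).ToType

/-- There are pairwise disjoint intervals between `a` and `b` which are ordered like `T`. -/
def Discr (T L : Type u) [LinearOrder T] [LinearOrder L] (a b : L) : Prop :=
  ∃ u v : T → L, (∀ t, a ≤ u t ∧ u t < v t ∧ v t ≤ b) ∧ ∀ s t, s < t → v s ≤ u t

/-- Letters: a copy of `T`, the middle letter, a second copy of `T`. -/
abbrev Lam (T : Type u) : Type u := T ⊕ₗ WithBot T

/-- The middle letter. -/
def mid (T : Type u) : Lam T := toLex (Sum.inr ⊥)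

/-- a letter of the left copy -/
def lf {T : Type u} (t : T) : Lam T := toLex (Sum.inl t)

/-- a letter of the right copy -/
def rt {T : Type u} (t : T) : Lam T := toLex (Sum.inr (t : WithBot T))

/-- The fractal order: the sequences of letters which are eventually the middle letter, ordered
lexicographically. -/
abbrev Frac (T : Type u) : Type u :=
  {x : Lex (ℕ → Lam T) // ∃ n, ∀ m, n ≤ m → ofLex x m = mid T}

noncomputable example (T : Type u) [LinearOrder T] : LinearOrder (Frac T) := inferInstance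

/-! ## Statements -/

/-- (LB/1) If every countable set has a strict upper bound then `ω₁` embeds; facts about `ω₁`. -/
def StmOmega : Prop :=
  (∀ w : O1.{u}, (Iio w).Countable) ∧ #(O1.{u}) = ℵ₁ ∧
  (∀ (P : Type u) [LinearOrder P], (∀ C : Set P, C.Countable → ∃ y, ∀ x ∈ C, x < y) →
    Nonempty (O1.{u} ↪o P)) ∧
  (∀ (P : Type u) [LinearOrder P], (∀ C : Set P, C.Countable → ∃ y, ∀ x ∈ C, y < x) →
    Nonempty ((O1.{u})ᵒᵈ ↪o P)) ∧
  (∀ (P : Type u) [LinearOrder P], CCC P →
    ¬ Nonempty (O1.{u} ↪o P) ∧ ¬ Nonempty ((O1.{u})ᵒᵈ ↪o P)) ∧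
  (∀ (C : Set O1.{u}), C.Countable → ∃ y, ∀ x ∈ C, x < y) ∧
  (∀ (h : ℕ → O1.{u} → O1.{u}) (w : O1.{u}), ∃ α, w < α ∧ ∀ γ, γ < α → ∀ n, h n γ < α)

/-- (LB/2) Condensation. -/
def StmCond : Prop :=
  ∀ (S : Type u) [LinearOrder S], Uncountable S → ¬ Nonempty (O1.{u} ↪o S) →
    ¬ Nonempty ((O1.{u})ᵒᵈ ↪o S) → ∃ T : Set S, InC ↥T ∧ #T = ℵ₁

/-- (LB/3) Continuity criterion, and removing a countable set. -/
def StmDel : Prop :=
  (∀ (A B : Type u) [LinearOrder A] [LinearOrder B] (f : A → B), StrictMono f →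
    (∀ x, ContAt f x) → IsLE f) ∧
  (∀ (A : Type u) [LinearOrder A] (D : Set A), InC A → D.Countable → InC ↥(Dᶜ)) ∧
  (∀ (A B : Type u) [LinearOrder A] [LinearOrder B] (f : A → B) (D : Set A), InC A →
    D.Countable → StrictMono f → (∀ x, x ∉ D → ContAt f x) →
    IsLE (fun x : ↥(Dᶜ) => f x))

/-- (LB/4) Monotone maps into ccc orders are continuous off a countable set; the ccc is inherited
by densely ordered suborders. -/
def StmDisc : Prop :=
  (∀ (A B : Type u) [LinearOrder A] [LinearOrder B] [DenselyOrdered B] (f : A → B),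
    CCC B → StrictMono f → {x | ¬ ContAt f x}.Countable) ∧
  (∀ (A B : Type u) [LinearOrder A] [LinearOrder B] [DenselyOrdered A], CCC B →
    Nonempty (A ↪o B) → CCC A)

/-- (LB/5) The least co-countable parts. -/
def StmLeast : Prop :=
  ∀ (J : Type) [Finite J] (A : J → Type u) [∀ j, LinearOrder (A j)],
    (∀ j, InC (A j)) → (∀ j, #(A j) = ℵ₁) → (∀ j, CCC (A j)) →
    (∀ j (Y : Set (A j)), ¬ Y.Countable → ∃ i, Nonempty (A i ↪o ↥Y)) →
    ∃ D : ∀ j, Set (A j), (∀ j, (D j).Countable) ∧
      ∀ i (E : Set (A i)), E.Countable → ∃ j, LotsLE ↥((D j)ᶜ) ↥(Eᶜ)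

/-- (LB/6) The fractal order is in the class. -/
def StmFracC : Prop :=
  ∀ (T : Type u) [LinearOrder T], #T = ℵ₁ → InC (Frac T)

/-- (LB/7) The fractal order embeds if there are discrete copies of `T` in all intervals. -/
def StmFracE : Prop :=
  ∀ (T L : Type u) [LinearOrder T] [LinearOrder L], InC L → Nonempty T →
    (∃ a b : L, a < b ∧ ∀ c d : L, a ≤ c → c < d → d ≤ b → Discr T L c d) →
    LotsLE (Frac T) L

/-- (LB/8) Families of disjoint intervals contain discrete copies of basis elements; subintervals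
are in the class. -/
def StmDiscr : Prop :=
  (∀ (J : Type) (T : J → Type u) [∀ j, LinearOrder (T j)],
    (∀ (S : Type u) [LinearOrder S], Uncountable S → ∃ j, Nonempty (T j ↪o S)) →
    ∀ (L : Type u) [LinearOrder L] [DenselyOrdered L] (a b : L), a < b →
      ¬ CCC ↥(Ioo a b) → ∃ j, Discr (T j) L a b) ∧
  (∀ (L : Type u) [LinearOrder L] (a b : L), InC L → a < b → InC ↥(Ioo a b)) ∧
  (∀ (L : Type u) [LinearOrder L] (a b : L), IsLE (fun x : ↥(Ioo a b) => (x : L)))

/-- `C` is a Countryman order: uncountable, and its square is a countable union of chains of the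
product order. -/
def Countryman (C : Type u) [LinearOrder C] : Prop :=
  Uncountable C ∧ ∃ K : ℕ → Set (C × C), (⋃ n, K n) = Set.univ ∧ ∀ n, IsChain (· ≤ ·) (K n)

/-- (LB/9) Embeddings between the five minimal types. -/
def StmCtryA : Prop :=
  (∀ (X C : Type u) [LinearOrder X] [LinearOrder C], Uncountable X → Nonempty (X ↪o ℝ) →
    Countryman C → ¬ Nonempty (X ↪o C)) ∧
  (∀ (C : Type u) [LinearOrder C], Countryman C →
    ¬ Nonempty (O1.{u} ↪o C) ∧ ¬ Nonempty ((O1.{u})ᵒᵈ ↪o C) ∧ ¬ Nonempty (Cᵒᵈ ↪o C)) ∧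
  (∀ (X : Type u) [LinearOrder X], Uncountable X → ¬ Nonempty (O1.{u} ↪o X) →
    ¬ Nonempty (X ↪o O1.{u})) ∧
  (¬ Nonempty ((O1.{u})ᵒᵈ ↪o O1.{u})) ∧
  (∀ (A : Type u) [LinearOrder A] [DenselyOrdered A] [Nontrivial A], Nonempty (A ↪o ℝ) → CCC A)

/-- (LB/10) Countryman orders have no ccc suborders in the class. -/
def StmCtryC : Prop :=
  ∀ (A C : Type u) [LinearOrder A] [LinearOrder C], Countryman C → InC A → #A = ℵ₁ →
    Nonempty (A ↪o C) → ¬ CCC A

/-- (LB/11) No ccc order of the class has a LOTS embedding into a fractal order. -/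
def StmNoFrac : Prop :=
  ∀ (A T : Type u) [LinearOrder A] [LinearOrder T], InC A → CCC A → ¬ LotsLE A (Frac T)

/-- (LB/12) An uncountable suborder of the fractal order of `T` contains an uncountable suborder
of `T`. -/
def StmLevel : Prop :=
  ∀ (S T : Type u) [LinearOrder S] [LinearOrder T], Uncountable S → Nonempty (S ↪o Frac T) →
    ∃ Z : Set T, ¬ Z.Countable ∧ Nonempty (↥Z ↪o S)

end Pool.Agent.N585.LB
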