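import Pool.Agent.N585.LB.Defs

/-!
# Bases for linearly ordered topological spaces: assembly
-/

namespace Pool.Agent.N585.LB

open Cardinal Set

universe u

/-- The family `T` is a basis for the uncountable linear orders under order embeddings. -/
def IsUBasis {J : Type} (T : J → Type u) [∀ j, LinearOrder (T j)] : Prop :=
  (∀ j, Uncountable (T j)) ∧
    ∀ (S : Type u) [LinearOrder S], Uncountable S → ∃ j, Nonempty (T j ↪o S)

/-- The family `B` is a basis for the class `C` under LOTS embeddings. -/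
def IsCBasis {J : Type} (B : J → Type u) [∀ j, LinearOrder (B j)] : Prop :=
  (∀ j, InC (B j)) ∧ ∀ (L : Type u) [LinearOrder L], InC L → ∃ j, LotsLE (B j) L

/-- The uncountable linear orders have a basis with at most `n` elements. -/
def UBasis (n : ℕ) : Prop :=
  ∃ (T : Fin n → Type u) (_ : ∀ j, LinearOrder (T j)), IsUBasis T

/-- The class `C` has a basis with at most `n` elements. -/
def CBasis (n : ℕ) : Prop :=
  ∃ (B : Fin n → Type u) (_ : ∀ j, LinearOrder (B j)), IsCBasis B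

section basic

theorem lotsLE_trans {A B C : Type u} [LinearOrder A] [LinearOrder B] [LinearOrder C]
    (h : LotsLE A B) (h' : LotsLE B C) : LotsLE A C := by
  obtain ⟨f, hf⟩ := h
  obtain ⟨g, hg⟩ := h'
  refine ⟨g ∘ f, hg.1.comp hf.1, ?_⟩
  let : TopologicalSpace A := Preorder.topology A
  let : TopologicalSpace B := Preorder.topology B
  let : TopologicalSpace C := Preorder.topology C
  exact Continuous.comp hg.2 hf.2

theorem LotsLE.emb {A B : Type u} [LinearOrder A] [LinearOrder B] (h : LotsLE A B) :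
    Nonempty (A ↪o B) := by
  obtain ⟨f, hf⟩ := h
  exact ⟨OrderEmbedding.ofStrictMono f hf.1⟩

theorem InC.denselyOrdered {L : Type u} [LinearOrder L] (h : InC L) : DenselyOrdered L := by
  refine ⟨fun a b hab => ?_⟩
  have h1 := h.dense a b hab
  have h2 : #(Ioo a b) ≠ 0 := by
    rw [h1]; exact (aleph_pos 1).ne'
  obtain ⟨x⟩ := mk_ne_zero_iff.1 h2
  exact ⟨x.1, x.2.1, x.2.2⟩

theorem uncountable_of_mk {L : Type u} (h : #L = ℵ₁) : Uncountable L := by
  rw [← aleph0_lt_mk_iff, h]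
  exact aleph0_lt_aleph_one

theorem not_countable_of_mk {L : Type u} {s : Set L} (h : #s = ℵ₁) : ¬ s.Countable := by
  rw [← le_aleph0_iff_set_countable, h, not_le]
  exact aleph0_lt_aleph_one

theorem InC.uncountable {L : Type u} [LinearOrder L] (h : InC L) : Uncountable L := by
  obtain ⟨a, b, hab⟩ := h.nontriv
  have h1 := not_countable_of_mk (h.dense a b hab)
  by_contra hc
  rw [not_uncountable_iff] at hc
  exact h1 (Set.to_countable _)

end basic

/-- A suborder of a densely ordered ccc order is ccc. -/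
theorem ccc_of_emb {T A : Type u} [LinearOrder T] [LinearOrder A] [DenselyOrdered A]
    (hA : CCC A) (h : Nonempty (T ↪o A)) : CCC T := by
  obtain ⟨e⟩ := h
  intro F hF hd
  rcases F.eq_empty_or_nonempty with rfl | ⟨p₀, -⟩
  · exact Set.countable_empty
  have : Nonempty T := ⟨p₀.1⟩
  choose! m hm using hF
  -- the middle points determine the intervals
  have hinj : ∀ p ∈ F, ∀ q ∈ F, m p = m q → p = q := by
    intro p hp q hq hpq
    by_contra hne
    have := hd hp hq hne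
    rw [Function.onFun, Set.disjoint_left] at this
    exact this (hm p hp) (hpq ▸ hm q hq)
  have key : ∀ p ∈ F, ∀ q ∈ F, m p < m q → m p ≤ q.1 := by
    intro p hp q hq hpq
    by_contra hc
    rw [not_le] at hc
    have hne : p ≠ q := fun h => by rw [h] at hpq; exact lt_irrefl _ hpq
    have := hd hp hq hne
    rw [Function.onFun, Set.disjoint_left] at this
    exact this (hm p hp) ⟨hc, hpq.trans (hm q hq).2⟩
  have hG := hA ((fun p => (e p.1, e (m p))) '' F) ?_ ?_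
  · refine Set.countable_of_injective_of_countable_image ?_ hG
    intro p hp q hq hpq
    have h2 : e (m p) = e (m q) := congrArg Prod.snd hpq
    exact hinj p hp q hq (e.injective h2)
  · rintro _ ⟨p, hp, rfl⟩
    exact Set.nonempty_Ioo.2 (e.strictMono (hm p hp).1)
  · rintro _ ⟨p, hp, rfl⟩ _ ⟨q, hq, rfl⟩ hne
    rw [Function.onFun, Set.disjoint_left]
    rintro x ⟨hx1, hx2⟩ ⟨hx3, hx4⟩
    rcases lt_trichotomy (m p) (m q) with h | h | h
    · exact absurd (hx2.trans_le (e.monotone (key p hp q hq h))) (not_lt.2 hx3.le)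
    · exact hne (by rw [hinj p hp q hq h])
    · exact absurd (hx4.trans_le (e.monotone (key q hq p hp h))) (not_lt.2 hx1.le)

theorem ccc_dual {A : Type u} [LinearOrder A] (h : CCC Aᵒᵈ) : CCC A := by
  intro F hF hd
  have hG := h ((fun p : A × A => (OrderDual.toDual p.2, OrderDual.toDual p.1)) '' F) ?_ ?_
  · refine Set.countable_of_injective_of_countable_image ?_ hG
    intro p hp q hq hpq
    have h1 : p.2 = q.2 := congrArg Prod.fst hpq
    have h2 : p.1 = q.1 := congrArg Prod.snd hpq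
    exact Prod.ext h2 h1
  · rintro _ ⟨p, hp, rfl⟩
    obtain ⟨x, hx⟩ := hF p hp
    exact ⟨OrderDual.toDual x, hx.2, hx.1⟩
  · rintro _ ⟨p, hp, rfl⟩ _ ⟨q, hq, rfl⟩ hne
    have hne' : p ≠ q := fun h => hne (by rw [h])
    have := hd hp hq hne'
    rw [Function.onFun, Set.disjoint_left] at this ⊢
    rintro x ⟨hx1, hx2⟩ ⟨hx3, hx4⟩
    exact this (a := OrderDual.ofDual x) ⟨hx2, hx1⟩ ⟨hx4, hx3⟩

theorem dual_emb {A B : Type u} [LinearOrder A] [LinearOrder B] (h : Nonempty (A ↪o B)) :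
    Nonempty (Aᵒᵈ ↪o Bᵒᵈ) := by
  obtain ⟨e⟩ := h
  exact ⟨e.dual⟩

/-- `T` contains a ccc order of the class. -/
def CT (T : Type u) [LinearOrder T] : Prop := ∃ A : Set T, InC ↥A ∧ #A = ℵ₁ ∧ CCC ↥A

theorem exists_CT (hOm : StmOmega.{u}) (hCond : StmCond.{u}) (hDisc : StmDisc.{u})
    {T L : Type u} [LinearOrder T] [LinearOrder L] (hL : CCC L) (hT : Uncountable T)
    (h : Nonempty (T ↪o L)) : CT T := by
  obtain ⟨e⟩ := h
  obtain ⟨h1, h2⟩ := hOm.2.2.2.2.1 L hL
  have h3 : ¬ Nonempty (O1.{u} ↪o T) := fun ⟨f⟩ => h1 ⟨f.trans e⟩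
  have h4 : ¬ Nonempty ((O1.{u})ᵒᵈ ↪o T) := fun ⟨f⟩ => h2 ⟨f.trans e⟩
  obtain ⟨A, hA, hA1⟩ := hCond T hT h3 h4
  refine ⟨A, hA, hA1, ?_⟩
  have := hA.denselyOrdered
  exact hDisc.2 A L hL ⟨(OrderEmbedding.subtype (· ∈ A)).trans e⟩

theorem discr_mono {T L : Type u} [LinearOrder T] [LinearOrder L] {a b c d : L}
    (hac : a ≤ c) (hdb : d ≤ b) (h : Discr T L c d) : Discr T L a b := by
  obtain ⟨p, q, h1, h2⟩ := h
  exact ⟨p, q, fun t => ⟨hac.trans (h1 t).1, (h1 t).2.1, (h1 t).2.2.trans hdb⟩, h2⟩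

theorem upper (hOm : StmOmega.{u}) (hCond : StmCond.{u}) (hDel : StmDel.{u})
    (hDisc : StmDisc.{u}) (hLeast : StmLeast.{u}) (hFE : StmFracE.{u}) (hDi : StmDiscr.{u})
    {J : Type} [Finite J] (T : J → Type u) [∀ j, LinearOrder (T j)] (hT : IsUBasis T) :
    ∃ (E : {j // CT (T j)} → Type u) (_ : ∀ j, LinearOrder (E j)),
      (∀ j, InC (E j)) ∧ (∀ j, CCC (E j)) ∧ (∀ j, Nonempty (E j ↪o T j.1)) ∧
      ∀ (L : Type u) [LinearOrder L], InC L →
        (∃ j, LotsLE (E j) L) ∨ ∃ j, LotsLE (Frac (T j)) L := by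
  classical
  choose A hA hA1 hAc using fun j : {j // CT (T j)} => j.2
  have H : ∀ (j : {j // CT (T j)}) (Y : Set ↥(A j)), ¬ Y.Countable →
      ∃ i : {j // CT (T j)}, Nonempty (↥(A i) ↪o ↥Y) := by
    intro j Y hY
    have hYu : Uncountable ↥Y := by
      rw [← not_countable_iff]
      exact fun h => hY (Set.countable_coe_iff.1 h)
    obtain ⟨i, ⟨e⟩⟩ := hT.2 ↥Y hYu
    have hi : CT (T i) := exists_CT hOm hCond hDisc (hAc j) (hT.1 i)
      ⟨e.trans (OrderEmbedding.subtype (· ∈ Y))⟩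
    exact ⟨⟨i, hi⟩, ⟨(OrderEmbedding.subtype (· ∈ A ⟨i, hi⟩)).trans e⟩⟩
  obtain ⟨D, hD, hDl⟩ := hLeast {j // CT (T j)} (fun j => ↥(A j)) hA hA1 hAc H
  refine ⟨fun j => ↥((D j)ᶜ), fun j => inferInstance, fun j => hDel.2.1 _ _ (hA j) (hD j), ?_, ?_,
    ?_⟩
  · intro j
    have := (hDel.2.1 _ _ (hA j) (hD j)).denselyOrdered
    exact hDisc.2 _ _ (hAc j) ⟨OrderEmbedding.subtype (· ∈ (D j)ᶜ)⟩
  · intro j
    exact ⟨(OrderEmbedding.subtype (· ∈ (D j)ᶜ)).trans (OrderEmbedding.subtype (· ∈ A j))⟩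
  · intro L _ hL
    have hLd := hL.denselyOrdered
    by_cases hc : ∃ a b : L, a < b ∧ CCC ↥(Ioo a b)
    · left
      obtain ⟨a, b, hab, hcc⟩ := hc
      have hI := hDi.2.1 L a b hL hab
      have hId := hI.denselyOrdered
      obtain ⟨i, ⟨e⟩⟩ := hT.2 ↥(Ioo a b) hI.uncountable
      have hi : CT (T i) := exists_CT hOm hCond hDisc hcc (hT.1 i) ⟨e⟩
      set g : ↥(A ⟨i, hi⟩) ↪o ↥(Ioo a b) := (OrderEmbedding.subtype (· ∈ A ⟨i, hi⟩)).trans e
        with hg
      have hcount := hDisc.1 _ _ g hcc g.strictMono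
      have hle := hDel.2.2 _ _ g _ (hA ⟨i, hi⟩) hcount g.strictMono (fun x hx => by
        simpa using hx)
      obtain ⟨j, hj⟩ := hDl ⟨i, hi⟩ _ hcount
      exact ⟨j, lotsLE_trans (lotsLE_trans hj ⟨_, hle⟩) ⟨_, hDi.2.2 L a b⟩⟩
    · right
      push Not at hc
      obtain ⟨a₀, b₀, hab₀⟩ := hL.nontriv
      have : Nonempty {p : L × L // p.1 < p.2} := ⟨⟨(a₀, b₀), hab₀⟩⟩
      let τ : {p : L × L // p.1 < p.2} → Set J := fun p => {j | Discr (T j) L p.1.1 p.1.2}
      obtain ⟨p, hp⟩ : ∃ p, ∀ q, (τ p).ncard ≤ (τ q).ncard :=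
        ⟨Function.argmin (fun p => (τ p).ncard), fun q =>
          Function.argmin_le (fun p => (τ p).ncard) q⟩
      obtain ⟨j, hj⟩ := hDi.1 J T hT.2 L p.1.1 p.1.2 p.2 (hc _ _ p.2)
      have hne : Nonempty (T j) := by
        have := hT.1 j
        exact inferInstance
      refine ⟨j, hFE (T j) L hL hne ⟨p.1.1, p.1.2, p.2, fun c d hc hcd hd => ?_⟩⟩
      have hsub : τ ⟨(c, d), hcd⟩ ⊆ τ p := fun k hk => discr_mono hc hd hk
      have heq := Set.eq_of_subset_of_ncard_le hsub (hp ⟨(c, d), hcd⟩) (Set.toFinite _)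
      have : j ∈ τ ⟨(c, d), hcd⟩ := by rw [heq]; exact hj
      exact this

/-- Passing to suborders of cardinality `ℵ₁`. -/
theorem exists_small {J : Type} (T : J → Type u) [∀ j, LinearOrder (T j)] (hT : IsUBasis T) :
    ∃ T' : ∀ j, Set (T j), (∀ j, #(T' j) = ℵ₁) ∧ IsUBasis (fun j => ↥(T' j)) := by
  have h1 : ∀ j, ∃ s : Set (T j), #s = ℵ₁ := by
    intro j
    apply Cardinal.le_mk_iff_exists_set.1
    rw [← succ_aleph0, Order.succ_le_iff, aleph0_lt_mk_iff]
    exact hT.1 j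
  choose T' hT' using h1
  refine ⟨T', hT', fun j => uncountable_of_mk (hT' j), fun S _ hS => ?_⟩
  obtain ⟨j, ⟨e⟩⟩ := hT.2 S hS
  exact ⟨j, ⟨(OrderEmbedding.subtype (· ∈ T' j)).trans e⟩⟩

theorem CBasis_of {J : Type} [Fintype J] [Nonempty J] (B : J → Type u)
    [∀ j, LinearOrder (B j)] (hB : IsCBasis B) {n : ℕ} (hn : Fintype.card J ≤ n) :
    CBasis.{u} n := by
  classical
  obtain ⟨f, hf⟩ : ∃ f : Fin n → J, Function.Surjective f := by
    have h1 : Fintype.card J ≤ Fintype.card (Fin n) := by simpa using hn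
    obtain ⟨g⟩ := Function.Embedding.nonempty_of_card_le h1
    exact ⟨Function.invFun g, Function.invFun_surjective g.injective⟩
  refine ⟨fun i => B (f i), fun i => inferInstance, fun i => hB.1 _, fun L _ hL => ?_⟩
  obtain ⟨j, hj⟩ := hB.2 L hL
  obtain ⟨i, rfl⟩ := hf j
  exact ⟨i, hj⟩

/-- The family consisting of the `E j` and of the fractal orders. -/
def Fam {J J' : Type} (E : J' → Type u) (T : J → Type u) : J' ⊕ J → Type u
  | .inl j => E j
  | .inr j => Frac (T j)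

noncomputable instance {J J' : Type} (E : J' → Type u) (T : J → Type u)
    [∀ j, LinearOrder (E j)] [∀ j, LinearOrder (T j)] : ∀ x, LinearOrder (Fam E T x)
  | .inl j => inferInstanceAs (LinearOrder (E j))
  | .inr j => inferInstanceAs (LinearOrder (Frac (T j)))

theorem Fam_basis {J J' : Type} (E : J' → Type u) (T : J → Type u)
    [∀ j, LinearOrder (E j)] [∀ j, LinearOrder (T j)] (h1 : ∀ j, InC (E j))
    (h2 : ∀ j, InC (Frac (T j)))
    (h3 : ∀ (L : Type u) [LinearOrder L], InC L →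
        (∃ j, LotsLE (E j) L) ∨ ∃ j, LotsLE (Frac (T j)) L) : IsCBasis (Fam E T) := by
  refine ⟨?_, ?_⟩
  · rintro (j | j)
    · exact h1 j
    · exact h2 j
  · intro L _ hL
    rcases h3 L hL with ⟨j, hj⟩ | ⟨j, hj⟩
    · exact ⟨.inl j, hj⟩
    · exact ⟨.inr j, hj⟩

theorem O1_uncountable (hOm : StmOmega.{u}) : Uncountable O1.{u} := uncountable_of_mk hOm.2.1

theorem UBasis_CBasis (hOm : StmOmega.{u}) (hCond : StmCond.{u}) (hDel : StmDel.{u})
    (hDisc : StmDisc.{u}) (hLeast : StmLeast.{u}) (hFC : StmFracC.{u}) (hFE : StmFracE.{u})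
    (hDi : StmDiscr.{u}) {n : ℕ} (h : UBasis.{u} n) : CBasis.{u} (2 * n) := by
  classical
  obtain ⟨T, _, hT⟩ := h
  obtain ⟨T', hT1, hT'⟩ := exists_small T hT
  obtain ⟨E, _, hE1, -, -, hE2⟩ := upper hOm hCond hDel hDisc hLeast hFE hDi _ hT'
  obtain ⟨j₀, -⟩ := hT.2 O1.{u} (O1_uncountable hOm)
  have : Nonempty ({j // CT ↥(T' j)} ⊕ Fin n) := ⟨.inr j₀⟩
  refine CBasis_of (Fam E (fun j => ↥(T' j)))
    (Fam_basis E _ hE1 (fun j => hFC _ (hT1 j)) hE2) ?_
  rw [Fintype.card_sum, Fintype.card_fin, two_mul]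
  have := Fintype.card_subtype_le (fun j : Fin n => CT ↥(T' j))
  rw [Fintype.card_fin] at this
  omega

theorem CBasis_UBasis (hOm : StmOmega.{u}) (hCond : StmCond.{u}) {n : ℕ} (h : CBasis.{u} n) :
    UBasis.{u} (n + 2) := by
  obtain ⟨B, _, hB⟩ := h
  let T : Fin (n + 2) → Σ X : Type u, LinearOrder X :=
    Fin.append (fun i => ⟨B i, inferInstance⟩)
      ![⟨O1.{u}, inferInstance⟩, ⟨(O1.{u})ᵒᵈ, inferInstance⟩]
  have hTl : ∀ i : Fin n, T (Fin.castAdd 2 i) = ⟨B i, inferInstance⟩ := fun i =>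
    Fin.append_left _ _ i
  have hTr : ∀ i : Fin 2, T (Fin.natAdd n i) =
      ![⟨O1.{u}, inferInstance⟩, ⟨(O1.{u})ᵒᵈ, inferInstance⟩] i := fun i =>
    Fin.append_right _ _ i
  refine ⟨fun i => (T i).1, fun i => (T i).2, ?_, ?_⟩
  · intro i
    refine Fin.addCases (fun i => ?_) (fun i => ?_) i
    · show Uncountable (T (Fin.castAdd 2 i)).1
      rw [hTl]; exact (hB.1 i).uncountable
    · show Uncountable (T (Fin.natAdd n i)).1
      rw [hTr]
      fin_cases i
      · exact O1_uncountable hOm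
      · exact O1_uncountable hOm
  · intro S _ hS
    have key : ∀ X : (Σ X : Type u, LinearOrder X), (∃ i, T i = X) →
        (letI := X.2; Nonempty (X.1 ↪o S)) →
        ∃ i, (letI := (T i).2; Nonempty ((T i).1 ↪o S)) := by
      rintro X ⟨i, rfl⟩ h
      exact ⟨i, h⟩
    by_cases h1 : Nonempty (O1.{u} ↪o S)
    · exact key ⟨O1.{u}, inferInstance⟩ ⟨Fin.natAdd n 0, hTr 0⟩ h1
    by_cases h2 : Nonempty ((O1.{u})ᵒᵈ ↪o S)
    · exact key ⟨(O1.{u})ᵒᵈ, inferInstance⟩ ⟨Fin.natAdd n 1, hTr 1⟩ h2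
    obtain ⟨A, hA, -⟩ := hCond S hS h1 h2
    obtain ⟨i, hi⟩ := hB.2 ↥A hA
    obtain ⟨e⟩ := hi.emb
    exact key ⟨B i, inferInstance⟩ ⟨Fin.castAdd 2 i, hTl i⟩
      ⟨e.trans (OrderEmbedding.subtype (· ∈ A))⟩

section lower

variable {J : Type} [Fintype J] (T : J → Type u) [∀ j, LinearOrder (T j)]

/-- The members of a basis are pairwise incomparable. -/
def Incomp {J : Type} (T : J → Type u) [∀ j, LinearOrder (T j)] : Prop :=
  ∀ i j, i ≠ j → ¬ Nonempty (T i ↪o T j)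

theorem Incomp.eq {J : Type} {T : J → Type u} [∀ j, LinearOrder (T j)] (h : Incomp T) {i j : J}
    (hij : Nonempty (T i ↪o T j)) : i = j := by
  by_contra hne
  exact h i j hne hij

/-- minimality of the members of an irredundant basis -/
theorem minimal {J : Type} {T : J → Type u} [∀ j, LinearOrder (T j)] (hT : IsUBasis T)
    (hI : Incomp T) {j : J} {S : Type u} [LinearOrder S] (hS : Uncountable S)
    (h : Nonempty (S ↪o T j)) : Nonempty (T j ↪o S) := by
  obtain ⟨k, ⟨e⟩⟩ := hT.2 S hS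
  obtain ⟨f⟩ := h
  obtain rfl := hI.eq ⟨e.trans f⟩
  exact ⟨e⟩

theorem uncountable_coe {L : Type u} {Z : Set L} (h : ¬ Z.Countable) : Uncountable ↥Z := by
  rw [← not_countable_iff]
  exact fun h' => h (Set.countable_coe_iff.1 h')

theorem Incomp.mk_eq {J : Type} {T : J → Type u} [∀ j, LinearOrder (T j)] (hT : IsUBasis T)
    (hI : Incomp T) (j : J) : #(T j) = ℵ₁ := by
  have h0 : ℵ₁ ≤ #(T j) := by
    rw [← succ_aleph0, Order.succ_le_iff, aleph0_lt_mk_iff]
    exact hT.1 j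
  obtain ⟨s, hs⟩ := Cardinal.le_mk_iff_exists_set.1 h0
  obtain ⟨e⟩ := minimal hT hI (uncountable_of_mk hs) ⟨OrderEmbedding.subtype (· ∈ s)⟩
  exact le_antisymm (hs ▸ mk_le_of_injective e.injective) h0

theorem CT_iff (hOm : StmOmega.{u}) (hCond : StmCond.{u}) (hDisc : StmDisc.{u})
    {J : Type} {T : J → Type u} [∀ j, LinearOrder (T j)] (hT : IsUBasis T)
    (hI : Incomp T) (j : J) : CT (T j) ↔ CCC (T j) := by
  constructor
  · rintro ⟨A, hA, -, hc⟩
    have := hA.denselyOrdered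
    exact ccc_of_emb hc (minimal hT hI hA.uncountable ⟨OrderEmbedding.subtype (· ∈ A)⟩)
  · intro h
    exact exists_CT hOm hCond hDisc h (hT.1 j) ⟨RelEmbedding.refl _⟩

theorem lower (hDisc : StmDisc.{u}) (hFC : StmFracC.{u}) (hNo : StmNoFrac.{u})
    (hLev : StmLevel.{u}) {J J' : Type} [Fintype J] [Fintype J'] (T : J → Type u)
    [∀ j, LinearOrder (T j)] (hT : IsUBasis T) (hI : Incomp T) (φ : J' → J)
    (hφ : Function.Injective φ) (E : J' → Type u) [∀ j, LinearOrder (E j)]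
    (hE : ∀ j, InC (E j)) (hEc : ∀ j, CCC (E j)) (hET : ∀ j, Nonempty (E j ↪o T (φ j)))
    {n : ℕ} (h : CBasis.{u} n) : Fintype.card J' + Fintype.card J ≤ n := by
  obtain ⟨B, _, hB⟩ := h
  have h1 : ∀ x : J' ⊕ J, ∃ i, LotsLE (B i) (Fam E T x) := by
    rintro (j | j)
    · exact hB.2 (E j) (hE j)
    · exact hB.2 (Frac (T j)) (hFC _ (hI.mk_eq hT j))
  choose ψ hψ using h1
  have hinj : Function.Injective ψ := by
    have A1 : ∀ i j, ψ (.inl i) = ψ (.inl j) → i = j := by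
      intro i j hij
      have h1 : LotsLE (B (ψ (.inl i))) (E i) := hψ (.inl i)
      have h2 : LotsLE (B (ψ (.inl i))) (E j) := by rw [hij]; exact hψ (.inl j)
      obtain ⟨k, ⟨e⟩⟩ := hT.2 (B (ψ (.inl i))) (hB.1 _).uncountable
      obtain ⟨f⟩ := h1.emb
      obtain ⟨g⟩ := h2.emb
      obtain ⟨f'⟩ := hET i
      obtain ⟨g'⟩ := hET j
      have e1 := hI.eq ⟨(e.trans f).trans f'⟩
      have e2 := hI.eq ⟨(e.trans g).trans g'⟩
      exact hφ (e1.symm.trans e2)
    have A2 : ∀ i j, ψ (.inl i) = ψ (.inr j) → False := by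
      intro i j hij
      have h1 : LotsLE (B (ψ (.inl i))) (E i) := hψ (.inl i)
      have h2 : LotsLE (B (ψ (.inl i))) (Frac (T j)) := by rw [hij]; exact hψ (.inr j)
      have := (hB.1 (ψ (.inl i))).denselyOrdered
      exact hNo _ _ (hB.1 _) (hDisc.2 _ _ (hEc i) h1.emb) h2
    have A3 : ∀ i j, ψ (.inr i) = ψ (.inr j) → i = j := by
      intro i j hij
      have h1 : LotsLE (B (ψ (.inr i))) (Frac (T i)) := hψ (.inr i)
      have h2 : LotsLE (B (ψ (.inr i))) (Frac (T j)) := by rw [hij]; exact hψ (.inr j)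
      obtain ⟨Z, hZ, ⟨e⟩⟩ := hLev _ _ (hB.1 _).uncountable h1.emb
      obtain ⟨f⟩ := minimal hT hI (uncountable_coe hZ) ⟨OrderEmbedding.subtype (· ∈ Z)⟩
      obtain ⟨g⟩ := h2.emb
      obtain ⟨Z', hZ', ⟨e'⟩⟩ := hLev _ _ (hT.1 i) ⟨(f.trans e).trans g⟩
      obtain ⟨f'⟩ := minimal hT hI (uncountable_coe hZ') ⟨OrderEmbedding.subtype (· ∈ Z')⟩
      exact (hI.eq ⟨f'.trans e'⟩).symm
    rintro (i | i) (j | j) hij
    · rw [A1 i j hij]
    · exact (A2 i j hij).elim
    · exact (A2 j i hij.symm).elim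
    · rw [A3 i j hij]
  have := Fintype.card_le_of_injective ψ hinj
  rwa [Fintype.card_sum, Fintype.card_fin] at this

theorem exact (hOm : StmOmega.{u}) (hCond : StmCond.{u}) (hDel : StmDel.{u})
    (hDisc : StmDisc.{u}) (hLeast : StmLeast.{u}) (hFC : StmFracC.{u}) (hFE : StmFracE.{u})
    (hDi : StmDiscr.{u}) (hNo : StmNoFrac.{u}) (hLev : StmLevel.{u})
    {J : Type} [Fintype J] (T : J → Type u) [∀ j, LinearOrder (T j)] (hT : IsUBasis T)
    (hI : Incomp T) :
    IsLeast {n | CBasis.{u} n} (Fintype.card J + Nat.card {j // CCC (T j)}) := by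
  classical
  obtain ⟨E, _, hE1, hE2, hE3, hE4⟩ := upper hOm hCond hDel hDisc hLeast hFE hDi T hT
  have hcard : Nat.card {j // CCC (T j)} = Fintype.card {j // CT (T j)} := by
    rw [Nat.card_eq_fintype_card]
    exact Fintype.card_congr (Equiv.subtypeEquivRight fun j =>
      (CT_iff hOm hCond hDisc hT hI j).symm)
  obtain ⟨j₀, -⟩ := hT.2 O1.{u} (O1_uncountable hOm)
  have : Nonempty ({j // CT (T j)} ⊕ J) := ⟨.inr j₀⟩
  rw [hcard, add_comm]
  refine ⟨?_, ?_⟩
  · refine CBasis_of (Fam E T) (Fam_basis E T hE1 (fun j => hFC _ (hI.mk_eq hT j)) hE4) ?_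
    rw [Fintype.card_sum]
  · intro n hn
    exact lower hDisc hFC hNo hLev T hT hI Subtype.val Subtype.val_injective E hE1 hE2 hE3 hn

end lower

end Pool.Agent.N585.LB
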