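import Pool.Agent.N585.LB.Main

/-!
# Bases for linearly ordered topological spaces: the five element basis of Moore
-/

namespace Pool.Agent.N585.LB

open Cardinal Set

universe u

/-- `X` (an uncountable set of reals), `ω₁`, its reverse, a Countryman order `C` and its reverse
form a basis of the uncountable linear orders. -/
def MooreBasis : Prop :=
  ∃ (X C : Type u) (_ : LinearOrder X) (_ : LinearOrder C), Uncountable X ∧
    Nonempty (X ↪o ℝ) ∧ Countryman C ∧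
    ∀ (S : Type u) [LinearOrder S], Uncountable S →
      Nonempty (X ↪o S) ∨ Nonempty (O1.{u} ↪o S) ∨ Nonempty ((O1.{u})ᵒᵈ ↪o S) ∨
        Nonempty (C ↪o S) ∨ Nonempty (Cᵒᵈ ↪o S)

/-- five indices -/
inductive Five : Type
  | x | w | ws | c | cs
  deriving DecidableEq

instance : Fintype Five :=
  ⟨{Five.x, Five.w, Five.ws, Five.c, Five.cs}, by intro i; cases i <;> decide⟩

theorem card_Five : Fintype.card Five = 5 := rfl

/-- the five orders -/
def Fiv (X C : Type u) : Five → Type u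
  | .x => X
  | .w => O1.{u}
  | .ws => (O1.{u})ᵒᵈ
  | .c => C
  | .cs => Cᵒᵈ

noncomputable instance (X C : Type u) [LinearOrder X] [LinearOrder C] :
    ∀ i, LinearOrder (Fiv X C i)
  | .x => inferInstanceAs (LinearOrder X)
  | .w => inferInstanceAs (LinearOrder O1.{u})
  | .ws => inferInstanceAs (LinearOrder (O1.{u})ᵒᵈ)
  | .c => inferInstanceAs (LinearOrder C)
  | .cs => inferInstanceAs (LinearOrder Cᵒᵈ)

/-- order embedding exists -/
def Em (A B : Type u) [LinearOrder A] [LinearOrder B] : Prop := Nonempty (A ↪o B)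

theorem Em.trans {A B D : Type u} [LinearOrder A] [LinearOrder B] [LinearOrder D]
    (h : Em A B) (h' : Em B D) : Em A D := by
  obtain ⟨e⟩ := h
  obtain ⟨f⟩ := h'
  exact ⟨e.trans f⟩

theorem em_dd {A B : Type u} [LinearOrder A] [LinearOrder B] (h : Em Aᵒᵈ B) : Em A Bᵒᵈ := by
  obtain ⟨e⟩ := h
  exact ⟨OrderEmbedding.ofStrictMono (fun a => OrderDual.toDual (e (OrderDual.toDual a)))
    (fun a b h => e.strictMono (show OrderDual.toDual b < OrderDual.toDual a from h))⟩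

theorem em_dd' {A B : Type u} [LinearOrder A] [LinearOrder B] (h : Em A Bᵒᵈ) : Em Aᵒᵈ B := by
  obtain ⟨e⟩ := h
  exact ⟨OrderEmbedding.ofStrictMono (fun a => OrderDual.ofDual (e (OrderDual.ofDual a)))
    (fun a b h => e.strictMono (show OrderDual.ofDual b < OrderDual.ofDual a from h))⟩

theorem em_dd2 {A B : Type u} [LinearOrder A] [LinearOrder B] (h : Em Aᵒᵈ Bᵒᵈ) : Em A B := by
  obtain ⟨e⟩ := h
  exact ⟨OrderEmbedding.ofStrictMono
    (fun a => OrderDual.ofDual (e (OrderDual.toDual a)))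
    (fun a b h => e.strictMono (show OrderDual.toDual b < OrderDual.toDual a from h))⟩

theorem moore (hOm : StmOmega.{u}) (hCond : StmCond.{u}) (hDel : StmDel.{u})
    (hDisc : StmDisc.{u}) (hLeast : StmLeast.{u}) (hFC : StmFracC.{u}) (hFE : StmFracE.{u})
    (hDi : StmDiscr.{u}) (hNo : StmNoFrac.{u}) (hLev : StmLevel.{u}) (hA : StmCtryA.{u})
    (hC : StmCtryC.{u}) (h : MooreBasis.{u}) : IsLeast {n | CBasis.{u} n} 6 := by
  classical
  obtain ⟨X, C, _, _, hX, hXR, hCC, hB⟩ := h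
  have hCu : Uncountable C := hCC.1
  have hO := O1_uncountable hOm
  -- ccc facts
  have hRd : DenselyOrdered (ULift.{u} ℝ) :=
    ⟨fun a b h => by
      obtain ⟨c, h1, h2⟩ := exists_between (show a.down < b.down from h)
      exact ⟨⟨c⟩, h1, h2⟩⟩
  have hR : CCC (ULift.{u} ℝ) := by
    refine hA.2.2.2.2 (ULift.{u} ℝ) ?_
    exact ⟨⟨⟨ULift.down, ULift.down_injective⟩, Iff.rfl⟩⟩
  have hXc : CCC X := by
    obtain ⟨e⟩ := hXR
    exact ccc_of_emb hR ⟨e.trans ⟨⟨ULift.up, ULift.up_injective⟩, Iff.rfl⟩⟩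
  obtain ⟨wx, wsx⟩ : ¬ Em O1.{u} X ∧ ¬ Em (O1.{u})ᵒᵈ X := hOm.2.2.2.2.1 X hXc
  obtain ⟨wc, wsc, csc⟩ : ¬ Em O1.{u} C ∧ ¬ Em (O1.{u})ᵒᵈ C ∧ ¬ Em Cᵒᵈ C := hA.2.1 C hCC
  have hwws : ¬ Em (O1.{u})ᵒᵈ O1.{u} := hA.2.2.2.1
  have hXo : Uncountable Xᵒᵈ := hX
  have hCo : Uncountable Cᵒᵈ := hCu
  have hown : ∀ (Y : Type u) [LinearOrder Y], Uncountable Y → ¬ Em O1.{u} Y → ¬ Em Y O1.{u} :=
    hA.2.2.1
  have xw : ¬ Em X O1.{u} := hown X hX wx
  have xws : ¬ Em X (O1.{u})ᵒᵈ := fun h =>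
    hown Xᵒᵈ hXo (fun h' => wsx (em_dd' h')) (em_dd' h)
  have cw : ¬ Em C O1.{u} := hown C hCu wc
  have cws : ¬ Em C (O1.{u})ᵒᵈ := fun h =>
    hown Cᵒᵈ hCo (fun h' => wsc (em_dd' h')) (em_dd' h)
  have xc : ¬ Em X C := hA.1 X C hX hXR hCC
  have cx : ¬ Em C X := by
    rintro ⟨e⟩
    obtain ⟨f⟩ := hXR
    exact hA.1 C C hCu ⟨e.trans f⟩ hCC ⟨RelEmbedding.refl _⟩
  have hneg : ∀ (Y : Type u) [LinearOrder Y], Nonempty (Y ↪o ℝ) → Nonempty (Yᵒᵈ ↪o ℝ) := by
    rintro Y _ ⟨e⟩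
    exact ⟨OrderEmbedding.ofStrictMono (fun a => - e (OrderDual.ofDual a))
      (fun a b h => neg_lt_neg (e.strictMono (show OrderDual.ofDual b < OrderDual.ofDual a from h)))⟩
  have xcs : ¬ Em X Cᵒᵈ := fun h => hA.1 Xᵒᵈ C hXo (hneg X hXR) hCC (em_dd' h)
  have csx : ¬ Em Cᵒᵈ X := by
    rintro ⟨e⟩
    obtain ⟨f⟩ := hXR
    obtain ⟨g⟩ := hneg Cᵒᵈ ⟨e.trans f⟩
    exact hA.1 C C hCu ⟨g⟩ hCC ⟨RelEmbedding.refl _⟩
  have hI : Incomp (Fiv X C) := by
    intro i j hij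
    rcases i with _ | _ | _ | _ | _ <;> rcases j with _ | _ | _ | _ | _
    · exact absurd rfl hij
    · exact xw
    · exact xws
    · exact xc
    · exact xcs
    · exact wx
    · exact absurd rfl hij
    · exact fun h => hwws (em_dd' h)
    · exact wc
    · exact fun h => wsc (em_dd' h)
    · exact wsx
    · exact hwws
    · exact absurd rfl hij
    · exact wsc
    · exact fun h => wc (em_dd2 h)
    · exact cx
    · exact cw
    · exact cws
    · exact absurd rfl hij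
    · exact fun h => csc (em_dd' h)
    · exact csx
    · exact fun h => hown Cᵒᵈ hCo (fun h' => wsc (em_dd' h')) h
    · exact fun h => cw (em_dd2 h)
    · exact csc
    · exact absurd rfl hij
  have hT : IsUBasis (Fiv X C) := by
    refine ⟨?_, ?_⟩
    · intro j
      rcases j with _ | _ | _ | _ | _
      · exact hX
      · exact hO
      · exact hO
      · exact hCu
      · exact hCu
    · intro S _ hS
      rcases hB S hS with h | h | h | h | h
      · exact ⟨.x, h⟩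
      · exact ⟨.w, h⟩
      · exact ⟨.ws, h⟩
      · exact ⟨.c, h⟩
      · exact ⟨.cs, h⟩
  have hCn : ¬ CCC C := by
    intro h
    obtain ⟨A, hA1, hA2, hA3⟩ := exists_CT hOm hCond hDisc h hCu ⟨RelEmbedding.refl _⟩
    exact hC _ C hCC hA1 hA2 ⟨OrderEmbedding.subtype (· ∈ A)⟩ hA3
  have hccc : ∀ j, CCC (Fiv X C j) ↔ j = .x := by
    intro j
    rcases j with _ | _ | _ | _ | _
    · exact ⟨fun _ => rfl, fun _ => hXc⟩
    · refine ⟨fun h => ?_, fun h => by simp at h⟩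
      exact absurd ⟨RelEmbedding.refl _⟩ (hOm.2.2.2.2.1 O1.{u} h).1
    · refine ⟨fun h => ?_, fun h => by simp at h⟩
      exact absurd ⟨RelEmbedding.refl _⟩ (hOm.2.2.2.2.1 (O1.{u})ᵒᵈ h).2
    · exact ⟨fun h => (hCn h).elim, fun h => by simp at h⟩
    · exact ⟨fun h => (hCn (ccc_dual h)).elim, fun h => by simp at h⟩
  have hmain := exact hOm hCond hDel hDisc hLeast hFC hFE hDi hNo hLev (Fiv X C) hT hI
  have h1 : Nat.card {j // CCC (Fiv X C j)} = 1 := by
    rw [Nat.card_eq_one_iff_unique]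
    refine ⟨⟨fun a b => Subtype.ext (((hccc _).1 a.2).trans ((hccc _).1 b.2).symm)⟩,
      ⟨⟨.x, (hccc _).2 rfl⟩⟩⟩
  rw [h1, card_Five] at hmain
  exact hmain

end Pool.Agent.N585.LB
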