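import Pool.Agent.N585.LB.Moore

/-!
# Bases for linearly ordered topological spaces: final form
-/

namespace Pool.Agent.N585.LB

open Cardinal Set

universe u

/-- A LOTS embedding: an injective order preserving map which is continuous for the interval
topologies. -/
def IsLOTSEmbedding {A B : Type u} [LinearOrder A] [LinearOrder B] (f : A → B) : Prop :=
  Function.Injective f ∧ (∀ x y, x ≤ y → f x ≤ f y) ∧
    @Continuous A B (Preorder.topology A) (Preorder.topology B) f

theorem isLOTSEmbedding_iff {A B : Type u} [LinearOrder A] [LinearOrder B] (f : A → B) :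
    IsLOTSEmbedding f ↔ IsLE f := by
  constructor
  · rintro ⟨h1, h2, h3⟩
    exact ⟨Monotone.strictMono_of_injective (fun x y h => h2 x y h) h1, h3⟩
  · rintro ⟨h1, h2⟩
    exact ⟨h1.injective, fun x y h => h1.monotone h, h2⟩

/-- `L` is `ℵ₁`-dense. -/
def AlephOneDense (L : Type u) [LinearOrder L] : Prop :=
  (∃ a b : L, a ≠ b) ∧ ∀ a b : L, a < b → #(Ioo a b) = ℵ₁

/-- Every point has countable cofinality and countable coinitiality, wherever these are defined:
if `x` is the supremum of a nonempty set of smaller points, then it is the supremum of a strictly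
increasing sequence of type `ω`, and dually. -/
def CountableCharacter (L : Type u) [LinearOrder L] : Prop :=
  ∀ x : L,
    ((∃ S : Set L, S.Nonempty ∧ (∀ y ∈ S, y < x) ∧ IsLUB S x) →
      ∃ s : ℕ → L, StrictMono s ∧ IsLUB (range s) x) ∧
    ((∃ S : Set L, S.Nonempty ∧ (∀ y ∈ S, x < y) ∧ IsGLB S x) →
      ∃ s : ℕ → L, StrictAnti s ∧ IsGLB (range s) x)

theorem inC_iff {L : Type u} [LinearOrder L] :
    (AlephOneDense L ∧ CountableCharacter L) ↔ InC L := by
  constructor
  · rintro ⟨⟨⟨a, b, hab⟩, h2⟩, h3⟩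
    have hd : DenselyOrdered L := by
      refine ⟨fun a b hab => ?_⟩
      have h1 := h2 a b hab
      have h2 : #(Ioo a b) ≠ 0 := by
        rw [h1]; exact (aleph_pos 1).ne'
      obtain ⟨x⟩ := mk_ne_zero_iff.1 h2
      exact ⟨x.1, x.2.1, x.2.2⟩
    refine ⟨?_, h2, fun x hx => ?_, fun x hx => ?_⟩
    · rcases lt_or_gt_of_ne hab with h | h
      · exact ⟨a, b, h⟩
      · exact ⟨b, a, h⟩
    · refine (h3 x).1 ⟨Iio x, hx, fun y hy => hy, ?_⟩
      refine ⟨fun y hy => le_of_lt hy, fun z hz => ?_⟩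
      by_contra hc
      obtain ⟨w, hw1, hw2⟩ := exists_between (not_le.1 hc)
      exact absurd (hz hw2) (not_le.2 hw1)
    · refine (h3 x).2 ⟨Ioi x, hx, fun y hy => hy, ?_⟩
      refine ⟨fun y hy => le_of_lt hy, fun z hz => ?_⟩
      by_contra hc
      obtain ⟨w, hw1, hw2⟩ := exists_between (not_le.1 hc)
      exact absurd (hz hw1) (not_le.2 hw2)
  · intro h
    refine ⟨⟨?_, h.dense⟩, fun x => ⟨?_, ?_⟩⟩
    · obtain ⟨a, b, hab⟩ := h.nontriv
      exact ⟨a, b, hab.ne⟩
    · rintro ⟨S, ⟨y, hy⟩, hS, -⟩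
      exact h.cof x ⟨y, hS y hy⟩
    · rintro ⟨S, ⟨y, hy⟩, hS, -⟩
      exact h.coi x ⟨y, hS y hy⟩

end Pool.Agent.N585.LB
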